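import Pool.Agent.Q183.AM.HC
import Pool.Agent.W318.SzpDefs

/-!
# The discriminants of the hyperelliptic curves whose Weierstrass points are given by linear
# recurrences

Let `C` be a hyperelliptic curve of genus `g ≥ 2` over a number field `K` with rational Weierstrass
points: `y² = d ∏ (x - a i)` with `2 g + 1` different `a i ∈ K` and `d ≠ 0`. We consider families
`a(t)`, `t = 0, 1, 2, …`, for which, up to a common factor, the differences `a_i(t) - a_j(t)` are
products `c_ij μ_ij ^ t ∏ r_s(t) ^ e_ijs` of powers of sequences `r_s` of integers of `K` with linear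
recurrences with constant coefficients. For example all families with integers `a_i(t)` which have
linear recurrences themselves are of this kind (the `r_s` are then the differences).

We show `log Δ_C ≤ (8 g ^ 2 + 4 g) log M_C + (8 g ^ 2 - 2) log N 𝔟 + X` for all `d`, if the product of
the `r_s(t)` with unequal exponents is the product of a squarefree ideal and of an ideal `𝔟` prime to
it, for almost all `t` with a constant `X`, and for all `t` with `X + ε t` instead of `X`.
-/

set_option autoImplicit false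

namespace Pool.Agent.Results.MP_ca2859_nt.ConfigurationsAlongRecurrences

open Polynomial NumberField
open Pool.Agent.W318 (discNorm badNorm)

/-- The polynomial `f` in the equation `y² = f(x) = d ∏ (x - a i)`; the Weierstrass points of the
curve are `∞` and the `a i`. -/
noncomputable def curve {K : Type} [Field K] {m : ℕ} (d : K) (a : Fin m → K) : K[X] :=
  C d * ∏ i, (X - C (a i))

variable {K : Type} [Field K] [NumberField K] {m n : ℕ}

/-- The indices `s` whose exponents in the differences are not all equal. -/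
def uneq (e : Fin m → Fin m → Fin n → ℕ) : Finset (Fin n) :=
  Finset.univ.filter fun s => ∃ i j k l, i ≠ j ∧ k ≠ l ∧ e i j s ≠ e k l s

/-- The inequality of Szpiro's kind with the constant `X`, for all curves of genus `g` with the
Weierstrass points `∞, a i`: for all ideals `𝔟` such that the product of the `r s` with unequal
exponents is `𝔞 𝔟` with a squarefree ideal `𝔞` prime to `𝔟`, and for all `d ≠ 0`. -/
def Szpiro (g : ℕ) (a : Fin m → K) (r : Fin n → 𝓞 K) (e : Fin m → Fin m → Fin n → ℕ) (X : ℝ) :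
    Prop :=
  ∀ 𝔞 𝔟 : Ideal (𝓞 K), Ideal.span {∏ s ∈ uneq e, r s} = 𝔞 * 𝔟 → Squarefree 𝔞 → IsCoprime 𝔞 𝔟 →
    ∀ d : K, d ≠ 0 →
      Real.log (discNorm g (curve d a)) ≤ (8 * g ^ 2 + 4 * g) * Real.log (badNorm g (curve d a)) +
        (8 * g ^ 2 - 2) * Real.log (Ideal.absNorm 𝔟) + X

/-- **Main theorem.** Let `g ≥ 2`, and let `a(t)` be a family of configurations as above.
(1) For every `η > 0` there is a constant `X` such that the inequality of Szpiro's kind holds for
all `t` for which the `a_i(t)` are different, outside a set with at most `η n` elements among any `n`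
consecutive integers, for `n` large and from some point on.
(2) For every `ε > 0` there is a constant `X` such that the inequality of Szpiro's kind with
`X + ε t` holds for all `t` for which the `a_i(t)` are different. -/
theorem result (g : ℕ) (hg : 2 ≤ g) (r : Fin n → ℕ → 𝓞 K)
    (hr : ∀ s, ∃ E : LinearRecurrence (𝓞 K), E.IsSolution (r s)) (a : ℕ → Fin (2 * g + 1) → K)
    (ρ : ℕ → K) (hρ : ∀ t, ρ t ≠ 0) (c μ : Fin (2 * g + 1) → Fin (2 * g + 1) → 𝓞 K)
    (hμ : ∀ i j, μ i j ≠ 0) (e : Fin (2 * g + 1) → Fin (2 * g + 1) → Fin n → ℕ)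
    (h : ∀ t i j, i ≠ j →
      a t i - a t j = ρ t * ((c i j * μ i j ^ t * ∏ s, r s t ^ e i j s : 𝓞 K) : K)) :
    (∀ η : ℝ, 0 < η → ∃ (X : ℝ) (T z : ℕ), ∀ t₀ N : ℕ, z ≤ t₀ → T ≤ N →
      (({t | t₀ ≤ t ∧ t < t₀ + N ∧ Function.Injective (a t) ∧
        ¬ Szpiro g (a t) (fun s => r s t) e X}.ncard : ℕ) : ℝ) ≤ η * N) ∧
    ∀ ε : ℝ, 0 < ε → ∃ X : ℝ, ∀ t : ℕ, Function.Injective (a t) →
      Szpiro g (a t) (fun s => r s t) e (X + ε * t) := by
  classical
  have hS : ∀ s, (∃ i j k l, i ≠ j ∧ k ≠ l ∧ e i j s ≠ e k l s) → s ∈ uneq e := fun s hs =>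
    Finset.mem_filter.2 ⟨Finset.mem_univ _, hs⟩
  have hS' : ∀ s ∈ uneq e, ∃ i j, i ≠ j ∧ e i j s ≠ 0 := by
    intro s hs
    obtain ⟨i, j, k, l, hij, hkl, hne⟩ := (Finset.mem_filter.1 hs).2
    by_cases h0 : e i j s = 0
    · exact ⟨k, l, hkl, fun h1 => hne (h0.trans h1.symm)⟩
    · exact ⟨i, j, hij, h0⟩
  have key : ∀ (X : ℝ) (t : ℕ), 0 ≤ X → Function.Injective (a t) →
      Pool.Agent.Q183.AM.HC.DIneq a r (uneq e) g (Real.exp X) t →
      Szpiro g (a t) (fun s => r s t) e X := by
    intro X t hX hinj h1 𝔞 𝔟 hab hsq hcop d hd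
    have h2 := h1 hinj 𝔞 𝔟 hab hsq hcop d hd
    rw [max_eq_left (Real.one_le_exp hX), Real.log_exp] at h2
    exact h2
  refine ⟨fun η hη => ?_, fun ε hε => ?_⟩
  · obtain ⟨X, T, z, hX, h1⟩ := Pool.Agent.Q183.AM.HC.disc_aa hg rfl r hr a ρ hρ c μ hμ e h
      (uneq e) hS hS' η hη
    refine ⟨X, T, z, fun t₀ N ht hN => le_trans ?_ (h1 t₀ N ht hN)⟩
    have h4 : {t | t₀ ≤ t ∧ t < t₀ + N ∧ Function.Injective (a t) ∧
        ¬ Szpiro g (a t) (fun s => r s t) e X} ⊆
        {t | t₀ ≤ t ∧ t < t₀ + N ∧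
          ¬ Pool.Agent.Q183.AM.HC.DIneq a r (uneq e) g (Real.exp X) t} := by
      rintro t ⟨k1, k2, k3, k4⟩
      exact ⟨k1, k2, fun h => k4 (key X t hX k3 h)⟩
    exact_mod_cast Set.ncard_le_ncard h4
      ((Set.finite_Ico t₀ (t₀ + N)).subset fun _ hs => ⟨hs.1, hs.2.1⟩)
  · obtain ⟨X, hX, h1⟩ := Pool.Agent.Q183.AM.HC.disc_ee hg rfl r hr a ρ hρ c μ hμ e h
      (uneq e) hS hS' ε hε
    exact ⟨X, fun t ht => key _ t (by positivity) ht (h1 t)⟩

end Pool.Agent.Results.MP_ca2859_nt.ConfigurationsAlongRecurrences
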