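import Pool.Agent.Q138.PS.WO
import Pool.Agent.Q138.AJ.Rca2859a
import Pool.Agent.Q138.AJ.Rca2859b

/-!
# Szpiro's inequality for hyperelliptic curves whose Weierstrass points are close to given points

Let `K` be a number field and `g ≥ 2`. The hyperelliptic curves of genus `g` over `K` with rational Weierstrass points are
`C : y² = d x (x - x_0) ⋯ (x - x_n)`, `n + 1 = 2 g`, with different `0, x_0, …, x_n ∈ K`, where the configuration
`(x_0 : … : x_n)` is a point of `ℙⁿ(K)` (a `K`-point of the moduli space `M_{0, 2 g + 2}`), and `d` is the quadratic twist. Let `Y`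
be a metric space and `p : ℙⁿ(K) → Y` any map; for instance the map to `ℝⁿ` or `ℂⁿ` or `K_vⁿ` given by the `x_j / x_0` and an
embedding of `K`. `H` is the height relative to `K`.

(1) Let `κ > 4 g + 2`, `τ > 0`, and let `e` be `7 g (2 g + 1) / (5 (κ - 4 g - 2))` or, if `κ > 4 g + 4`, the number
`expo g κ < 2 g` of the starting file. There is a set `Z ⊆ Y` of Hausdorff dimension at most `e / τ` such that for `z ∈ Y` outside
`Z`, all `C > 0` and all `c`, all but finitely many of the configurations `P` with `dist (p P, z) ≤ c H(P) ^ (-τ)` satisfy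
`Δ_C ≤ C M_C ^ κ` for ALL quadratic twists `d`.

(2) Let `0 ≤ κ < 4 g + 4`. There is a set `Z ⊆ Y` of Hausdorff dimension at most `expoBelow g κ / τ`, where
`expoBelow g κ < 2 g`, such that for `z ∈ Y` outside `Z`, all `C > 0` and `c`, for all but finitely many of these configurations
`Δ_C ≤ C M_C ^ κ` FAILS for some quadratic twist `d`. (`2 g / τ = 2 g - 1` for Dirichlet's exponent `τ = 2 g / (2 g - 1)`, so that
for almost all targets in `ℝ^(2 g - 1)` the exponent `4 g + 4` is the right one.)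

(3) There is ONE set `Z ⊆ Y` of Hausdorff dimension ZERO such that for `z ∈ Y` outside `Z`, every `τ > 0` and `c` there is an
exponent `N` such that for all `C > 0`, all but finitely many of the configurations `P` with `dist (p P, z) ≤ c H(P) ^ (-τ)`
satisfy `Δ_C ≤ C M_C ^ N` for ALL quadratic twists `d`.
-/

set_option autoImplicit false

open NumberField Height LinearAlgebra.Projectivization
open Pool.Agent.W318 (discNorm badNorm)

namespace Pool.Agent.Results.MP_ca2859_nt.ConfigurationsNearGivenPoints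

open Pool.Agent.Q138.PS Pool.Agent.Q138.AJ.Rca2859a

/-- the configurations: the numbers `0, x_0, …, x_n` are different -/
def Config {K : Type} [Field K] {n : ℕ} (P : ℙ K (Fin (n + 1) → K)) : Prop := Function.Injective (roots P.rep)

/-- The inequality `Δ_C ≤ C M_C ^ κ` holds for all quadratic twists. -/
def Szpiro {K : Type} [Field K] [NumberField K] {n : ℕ} (g : ℕ) (κ C : ℝ) (P : ℙ K (Fin (n + 1) → K)) : Prop :=
  ∀ d : K, d ≠ 0 → (discNorm g (curve d P.rep) : ℝ) ≤ C * (badNorm g (curve d P.rep) : ℝ) ^ κ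

/-- the configurations whose images are within `c H ^ (-τ)` of `z` -/
def Near {K Y : Type} [Field K] [NumberField K] [MetricSpace Y] {n : ℕ} (p : ℙ K (Fin (n + 1) → K) → Y) (z : Y) (c τ : ℝ) :
    Set (ℙ K (Fin (n + 1) → K)) := {P | Config P ∧ dist (p P) z ≤ c * P.mulHeight ^ (-τ)}

section
variable {K : Type} [Field K] [NumberField K] {n : ℕ}

theorem Szpiro.mono {g : ℕ} {κ C C' : ℝ} (h : C ≤ C') {P : ℙ K (Fin (n + 1) → K)} (hP : Szpiro g κ C P) : Szpiro g κ C' P :=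
  fun d hd => (hP d hd).trans (mul_le_mul_of_nonneg_right h (Real.rpow_nonneg (Nat.cast_nonneg _) _))

theorem height_iff (P : ℙ K (Fin (n + 1) → K)) (T : ℝ) (hT : 1 ≤ T) : P.mulHeight ≤ T ↔
    height P ≤ Real.log (T ^ (1 / (Module.finrank ℚ K : ℝ))) := by
  have hn : (0 : ℝ) < Module.finrank ℚ K := by exact_mod_cast Module.finrank_pos
  unfold height
  rw [Real.log_rpow (by linarith), one_div, inv_mul_eq_div, div_le_div_iff_of_pos_right hn]
  exact (Real.log_le_log_iff (lt_of_lt_of_le one_pos P.one_le_mulHeight) (by linarith)).symm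

theorem exc_eq (g : ℕ) (κ C T : ℝ) (hT : 1 ≤ T) :
    {P : ℙ K (Fin (n + 1) → K) | P ∈ {P : ℙ K (Fin (n + 1) → K) | Config P ∧ ¬ Szpiro g κ C P} ∧ P.mulHeight ≤ T} =
      exceptional K g n κ C (T ^ (1 / (Module.finrank ℚ K : ℝ))) := by
  ext P
  unfold exceptional Szpiro Config
  constructor
  · rintro ⟨⟨h1, h2⟩, h3⟩
    push Not at h2
    exact ⟨h1, (height_iff P T hT).1 h3, h2⟩
  · rintro ⟨h1, h3, h2⟩
    refine ⟨⟨h1, ?_⟩, (height_iff P T hT).2 h3⟩
    push Not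
    exact h2

theorem uni_eq (g : ℕ) (κ C T : ℝ) (hT : 1 ≤ T) :
    {P : ℙ K (Fin (n + 1) → K) | P ∈ {P : ℙ K (Fin (n + 1) → K) | Config P ∧ Szpiro g κ C P} ∧ P.mulHeight ≤ T} =
      uniform K g n κ C (T ^ (1 / (Module.finrank ℚ K : ℝ))) := by
  ext P
  unfold uniform Szpiro Config
  constructor
  · rintro ⟨⟨h1, h2⟩, h3⟩
    exact ⟨h1, (height_iff P T hT).1 h3, h2⟩
  · rintro ⟨h1, h3, h2⟩
    exact ⟨⟨h1, h2⟩, (height_iff P T hT).2 h3⟩

/-- powers of `B = T ^ (1 / m)` -/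
theorem pow_eq {T M e ε : ℝ} (hT : 1 ≤ T) (m : ℕ) (hm : 0 < m) :
    M * (T ^ (1 / (m : ℝ))) ^ ((m : ℝ) * e + m * ε) = M * T ^ (e + ε) := by
  have hm0 : (0 : ℝ) < m := by exact_mod_cast hm
  rw [← Real.rpow_mul (by linarith)]
  congr 2
  field_simp

/-- the exponents of the counts for `κ > 4 g + 2` -/
theorem count_above {g : ℕ} (hg : 2 ≤ g) (hn : n + 1 = 2 * g) {κ C e : ℝ} (hC : 0 < C)
    (he : (4 * g + 2 < κ ∧ e = 7 * g * (2 * g + 1) / (5 * (κ - 4 * g - 2))) ∨ (4 * g + 4 < κ ∧ e = expo g κ)) (ε : ℝ)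
    (hε : 0 < ε) : ∃ M : ℝ, ∀ T : ℝ, 1 ≤ T →
      {P : ℙ K (Fin (n + 1) → K) | P ∈ {P : ℙ K (Fin (n + 1) → K) | Config P ∧ ¬ Szpiro g κ C P} ∧ P.mulHeight ≤ T}.Finite ∧
      (({P : ℙ K (Fin (n + 1) → K) | P ∈ {P : ℙ K (Fin (n + 1) → K) | Config P ∧ ¬ Szpiro g κ C P} ∧
        P.mulHeight ≤ T}).ncard : ℝ) ≤ M * T ^ (e + ε) := by
  have hm : 0 < Module.finrank ℚ K := Module.finrank_pos
  have hm0 : (0 : ℝ) < Module.finrank ℚ K := by exact_mod_cast hm
  have h : ∃ M : ℝ, ∀ B : ℝ, 1 ≤ B → (exceptional K g n κ C B).Finite ∧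
      ((exceptional K g n κ C B).ncard : ℝ) ≤ M * B ^ (Module.finrank ℚ K * e + Module.finrank ℚ K * ε) := by
    rcases he with ⟨hκ, rfl⟩ | ⟨hκ, rfl⟩
    · exact (Pool.Agent.Q138.AJ.Rca2859b.result K g n hg hn).2 κ C (Module.finrank ℚ K * ε) hκ hC (by positivity)
    · exact ((Pool.Agent.Q138.AJ.Rca2859a.result K g n hg hn κ).1 hκ).2 C (Module.finrank ℚ K * ε) hC (by positivity)
  obtain ⟨M, hM⟩ := h
  refine ⟨M, fun T hT => ?_⟩
  rw [exc_eq g κ C T hT]
  obtain ⟨h1, h2⟩ := hM (T ^ (1 / (Module.finrank ℚ K : ℝ))) (Real.one_le_rpow hT (by positivity))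
  exact ⟨h1, h2.trans (le_of_eq (pow_eq hT _ hm))⟩

end

/-- **Theorem.** -/
theorem result (K : Type) [Field K] [NumberField K] (g n : ℕ) (hg : 2 ≤ g) (hn : n + 1 = 2 * g)
    (Y : Type) [MetricSpace Y] [MeasurableSpace Y] [BorelSpace Y] (p : ℙ K (Fin (n + 1) → K) → Y) :
    (∀ κ τ e : ℝ, 0 < τ →
      ((4 * g + 2 < κ ∧ e = 7 * g * (2 * g + 1) / (5 * (κ - 4 * g - 2))) ∨ (4 * g + 4 < κ ∧ e = expo g κ)) →
      ∃ Z : Set Y, dimH Z ≤ ENNReal.ofReal (e / τ) ∧ ∀ z, z ∉ Z → ∀ C c : ℝ, 0 < C →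
        {P | P ∈ Near p z c τ ∧ ¬ Szpiro g κ C P}.Finite) ∧
    (∀ κ τ : ℝ, 0 < τ → 0 ≤ κ → κ < 4 * g + 4 → expoBelow g κ < 2 * g ∧
      ∃ Z : Set Y, dimH Z ≤ ENNReal.ofReal (expoBelow g κ / τ) ∧ ∀ z, z ∉ Z → ∀ C c : ℝ, 0 < C →
        {P | P ∈ Near p z c τ ∧ Szpiro g κ C P}.Finite) ∧
    ∃ Z : Set Y, dimH Z = 0 ∧ ∀ z, z ∉ Z → ∀ τ c : ℝ, 0 < τ → ∃ N : ℕ, ∀ C : ℝ, 0 < C →
      {P | P ∈ Near p z c τ ∧ ¬ Szpiro g N C P}.Finite := by
  have hg0 : (2 : ℝ) ≤ g := by exact_mod_cast hg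
  have hone : ∀ P : ℙ K (Fin (n + 1) → K), 1 ≤ P.mulHeight := fun P => P.one_le_mulHeight
  refine ⟨?_, ?_, ?_⟩
  · intro κ τ e hτ he
    have he0 : 0 ≤ e := by
      rcases he with ⟨hκ, rfl⟩ | ⟨hκ, rfl⟩
      · have : 0 < κ - 4 * g - 2 := by linarith
        positivity
      · have : 0 < κ - 4 * g - 2 := by linarith
        unfold expo
        refine le_min (le_max_of_le_left (by linarith)) (le_min (by positivity) ?_)
        have h1 : (0 : ℝ) ≤ 2 * g - 1 := by linarith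
        positivity
    have h : ∀ m : ℕ, ∃ Z : Set Y, dimH Z ≤ ENNReal.ofReal (e / τ) ∧ ∀ z, z ∉ Z → ∀ c : ℝ,
        {P | P ∈ {P : ℙ K (Fin (n + 1) → K) | Config P ∧ ¬ Szpiro g κ (1 / ((m : ℝ) + 1)) P} ∧
          dist (p P) z ≤ c * P.mulHeight ^ (-τ)}.Finite := fun m =>
      fin_lim p _ (fun P => P.mulHeight) hone e he0
        (fun ε hε => count_above hg hn (by positivity : (0 : ℝ) < 1 / ((m : ℝ) + 1)) he ε hε) τ hτ
    choose Z hZ hz using h
    refine ⟨⋃ m, Z m, ?_, fun z hzZ C c hC => ?_⟩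
    · rw [dimH_iUnion]
      exact iSup_le hZ
    · obtain ⟨m, hm⟩ := exists_nat_one_div_lt hC
      refine (hz m z (fun hh => hzZ (Set.mem_iUnion.2 ⟨_, hh⟩)) c).subset ?_
      rintro P ⟨⟨h2, h3⟩, h4⟩
      exact ⟨⟨h2, fun hcon => h4 (hcon.mono hm.le)⟩, h3⟩
  · intro κ τ hτ hκ hκ4
    obtain ⟨hb, hcount⟩ := (Pool.Agent.Q138.AJ.Rca2859a.result K g n hg hn κ).2 hκ hκ4
    refine ⟨hb, ?_⟩
    have hm : 0 < Module.finrank ℚ K := Module.finrank_pos
    have hm0 : (0 : ℝ) < Module.finrank ℚ K := by exact_mod_cast hm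
    have he0 : 0 ≤ expoBelow g κ := by
      unfold expoBelow
      exact le_max_of_le_left (by linarith)
    have h : ∀ m : ℕ, ∃ Z : Set Y, dimH Z ≤ ENNReal.ofReal (expoBelow g κ / τ) ∧ ∀ z, z ∉ Z → ∀ c : ℝ,
        {P | P ∈ {P : ℙ K (Fin (n + 1) → K) | Config P ∧ Szpiro g κ ((m : ℝ) + 1) P} ∧
          dist (p P) z ≤ c * P.mulHeight ^ (-τ)}.Finite := fun m =>
      fin_lim p _ (fun P => P.mulHeight) hone (expoBelow g κ) he0 (fun ε hε => by
        obtain ⟨M, hM⟩ := hcount ((m : ℝ) + 1) (Module.finrank ℚ K * ε) (by positivity) (by positivity)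
        refine ⟨M, fun T hT => ?_⟩
        rw [uni_eq g κ _ T hT]
        obtain ⟨h1, h2⟩ := hM (T ^ (1 / (Module.finrank ℚ K : ℝ))) (Real.one_le_rpow hT (by positivity))
        exact ⟨h1, h2.trans (le_of_eq (pow_eq hT _ hm))⟩) τ hτ
    choose Z hZ hz using h
    refine ⟨⋃ m, Z m, ?_, fun z hzZ C c hC => ?_⟩
    · rw [dimH_iUnion]
      exact iSup_le hZ
    · obtain ⟨m, hm⟩ := exists_nat_ge C
      refine (hz m z (fun hh => hzZ (Set.mem_iUnion.2 ⟨_, hh⟩)) c).subset ?_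
      rintro P ⟨⟨h2, h3⟩, h4⟩
      exact ⟨⟨h2, h4.mono (by linarith)⟩, h3⟩
  · obtain ⟨Z, hZ, hz⟩ := fin_eps_all (J := ℕ) p
      (fun m N => {P : ℙ K (Fin (n + 1) → K) | Config P ∧ ¬ Szpiro g (N : ℝ) (1 / ((m : ℝ) + 1)) P}) (fun P => P.mulHeight) hone (by
        intro ε hε
        obtain ⟨N, hN⟩ := exists_nat_gt (4 * g + 2 + 7 * g * (2 * g + 1) * 2 / (5 * ε))
        have h0 : (0 : ℝ) < 7 * g * (2 * g + 1) * 2 / (5 * ε) := by positivity
        have h1 : (4 : ℝ) * g + 2 < N := by linarith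
        have h2 : 7 * (g : ℝ) * (2 * g + 1) / (5 * (N - 4 * g - 2)) ≤ ε / 2 := by
          have h3 : 0 < (N : ℝ) - 4 * g - 2 := by linarith
          rw [div_le_iff₀ (by positivity)]
          have h4 : 7 * (g : ℝ) * (2 * g + 1) * 2 / (5 * ε) < N - 4 * g - 2 := by linarith
          rw [div_lt_iff₀ (by positivity)] at h4
          nlinarith
        refine ⟨N, fun m => ?_⟩
        obtain ⟨M, hM⟩ := count_above (K := K) (n := n) hg hn (by positivity : (0 : ℝ) < 1 / ((m : ℝ) + 1))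
          (Or.inl ⟨h1, rfl⟩) (ε / 2) (by positivity)
        refine ⟨|M|, fun T hT => ?_⟩
        obtain ⟨h3, h4⟩ := hM T hT
        refine ⟨h3, h4.trans ?_⟩
        have hT0 : 0 ≤ T := by linarith
        refine (mul_le_mul_of_nonneg_right (le_abs_self M) (Real.rpow_nonneg hT0 _)).trans
          (mul_le_mul_of_nonneg_left (Real.rpow_le_rpow_of_exponent_le hT ?_) (abs_nonneg _))
        linarith)
    refine ⟨Z, hZ, fun z hzZ τ c hτ => ?_⟩
    obtain ⟨N, hN⟩ := hz z hzZ τ c hτ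
    refine ⟨N, fun C hC => ?_⟩
    obtain ⟨m, hm⟩ := exists_nat_one_div_lt hC
    refine (hN m).subset ?_
    rintro P ⟨⟨h2, h3⟩, h4⟩
    exact ⟨⟨h2, fun hcon => h4 (hcon.mono hm.le)⟩, h3⟩

end Pool.Agent.Results.MP_ca2859_nt.ConfigurationsNearGivenPoints
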