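import Mathlib
import Pool.Agent.W318.SzpDefs
import Pool.Agent.Q128.HD.Fin
import Pool.Agent.Q128.HD.Fam

/-!
# The discriminant of the hyperelliptic curves with rational Weierstrass points: cross ratios, and
the configurations composed of numbers with small digits

Let `C` be a hyperelliptic curve of genus `g ≥ 2` over a number field `K` all of whose `2 g + 2`
Weierstrass points are rational: `y² = d ∏ (x - a i)` with `2 g + 1` different `a i ∈ K` and `d ≠ 0`.
Every such curve has infinitely many twists `d`.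

(1) We bound `log Δ_C` by `(4 g + 2) log M_C` and the heights of the cross ratios of the
Weierstrass points, for all such curves over all number fields.

(2) With the abc theorem for the numbers with small digits we get the inequality
`Δ_C ≤ M_C ^ (8 g ^ 2 + 4 g)`, without a constant and for all `d`, if the differences `a i - a j`
are, up to a common factor, composed of numbers with small digits. Here `t` is an integer of `K` all
of whose conjugates are at least `T` in absolute value (the base). The values `F s (t)` of polynomials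
over the integers of `K` are numbers with the digits `(F s).coeff j` in base `t`; the total number of
digits is bounded, all conjugates of all digits are at most `T ^ δ`, those of the first digits at least
`T ^ (-δ)` and those of the last digits at most `1`. The constants `δ` and `T₀` depend only on `g` and
the number of digits, not on `K` or its degree.

(3) There are many such configurations already over `ℚ`.
-/

set_option autoImplicit false

namespace Pool.Agent.Results.MP_ca2859_nt.SmallDigitConfigurations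

open Polynomial NumberField Finset
open Pool.Agent.W318 (discNorm badNorm)

section Defs

variable {K : Type} [Field K]

/-- The polynomial `f` in the equation `y² = f(x) = d ∏ (x - a i)`; the Weierstrass points of the
curve are `∞` and the `a i`. -/
noncomputable def curve {m : ℕ} (d : K) (a : Fin m → K) : K[X] := C d * ∏ i, (X - C (a i))

/-- The Weierstrass points: the linear forms `p.1 x + p.2` vanishing at `∞` and at the `a i`. -/
def form {m : ℕ} (a : Fin m → K) : Fin (m + 1) → K × K := Fin.cons (0, 1) fun i => (1, -a i)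

/-- The determinants of the linear forms: `a i - a j` for two finite Weierstrass points, `±1` if one
of them is `∞`. -/
def bracket {m : ℕ} (a : Fin m → K) (i j : Fin (m + 1)) : K :=
  (form a i).1 * (form a j).2 - (form a j).1 * (form a i).2

/-- The quadruples of different Weierstrass points. -/
def quadruples (m : ℕ) : Finset (Fin (m + 1) × Fin (m + 1) × Fin (m + 1) × Fin (m + 1)) :=
  univ.filter fun q => q.1 ≠ q.2.1 ∧ q.1 ≠ q.2.2.1 ∧ q.1 ≠ q.2.2.2 ∧ q.2.1 ≠ q.2.2.1 ∧
    q.2.1 ≠ q.2.2.2 ∧ q.2.2.1 ≠ q.2.2.2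

variable [NumberField K]

/-- The logarithmic height (relative to `K`) of the cross ratio of the Weierstrass points
`i, j, k, l`: the height of the point `([ij][kl] : [ki][jl] : [il][jk])`, whose coordinates have sum
zero. -/
noncomputable def crossHeight {m : ℕ} (a : Fin m → K)
    (q : Fin (m + 1) × Fin (m + 1) × Fin (m + 1) × Fin (m + 1)) : ℝ :=
  Height.logHeight ![bracket a q.1 q.2.1 * bracket a q.2.2.1 q.2.2.2,
    bracket a q.2.2.1 q.1 * bracket a q.2.1 q.2.2.2,
    bracket a q.1 q.2.2.2 * bracket a q.2.1 q.2.2.1]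

/-- The conditions on the base `t`, the polynomials `F s` (the numbers `F s (t)` with small digits),
the small factors `c i j` and the exponents `e i j s`. -/
structure Small (D : ℕ) (δ T : ℝ) {m n : ℕ} (t : 𝓞 K) (F : Fin n → (𝓞 K)[X])
    (c : Fin m → Fin m → 𝓞 K) (e : Fin m → Fin m → Fin n → ℕ) : Prop where
  /-- all conjugates of the base are at least `T` -/
  base : ∀ σ : K →+* ℂ, T ≤ ‖σ t‖
  /-- at least two digits -/
  two_digits : ∀ s, 0 < (F s).natDegree
  /-- bounded number of digits -/
  number : ∑ s, (F s).natDegree ≤ D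
  /-- all conjugates of the digits are at most `T ^ δ` -/
  digits : ∀ s j, ∀ σ : K →+* ℂ, ‖σ ((F s).coeff j)‖ ≤ T ^ δ
  /-- all conjugates of the first digits are at least `T ^ (-δ)` -/
  first : ∀ s, ∀ σ : K →+* ℂ, T ^ (-δ) ≤ ‖σ (F s).leadingCoeff‖
  /-- all conjugates of the last digits are at most `1` (zero or roots of unity) -/
  last : ∀ s, ∀ σ : K →+* ℂ, ‖σ ((F s).coeff 0)‖ ≤ 1
  /-- the numbers are pairwise coprime -/
  coprime : ∀ s s', s ≠ s' → IsCoprime ((F s).eval t) ((F s').eval t)
  /-- all conjugates of the small factors are at most `T ^ δ` -/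
  coefficients : ∀ i j, i ≠ j → ∀ σ : K →+* ℂ, ‖σ (c i j)‖ ≤ T ^ δ
  /-- the exponents are at most `T ^ δ` -/
  exponents : ∀ i j, i ≠ j → ((∑ s, e i j s : ℕ) : ℝ) ≤ T ^ δ

/-- The indices `s` whose exponents in the differences are not all equal. -/
def unequal {m n : ℕ} (e : Fin m → Fin m → Fin n → ℕ) : Finset (Fin n) :=
  univ.filter fun s => ∃ i j k l, i ≠ j ∧ k ≠ l ∧ e i j s ≠ e k l s

/-- The configuration `∞, a i` is composed of numbers with small digits: up to a common factor `κ`
the differences `a i - a j` are products of small integers `c i j` of `K` and of powers of the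
pairwise coprime numbers `F s (t)`, and the product of the `F s (t)` whose exponents in the
differences are not all equal (there is at least one) is squarefree. -/
def Composed (D : ℕ) (δ T : ℝ) {m : ℕ} (a : Fin m → K) : Prop :=
  Function.Injective a ∧ ∃ (n : ℕ) (t : 𝓞 K) (F : Fin n → (𝓞 K)[X]) (κ : K)
    (c : Fin m → Fin m → 𝓞 K) (e : Fin m → Fin m → Fin n → ℕ), Small D δ T t F c e ∧ κ ≠ 0 ∧
    (∀ i j, i ≠ j → a i - a j = κ * ((c i j * ∏ s, (F s).eval t ^ e i j s : 𝓞 K) : K)) ∧
    (unequal e).Nonempty ∧ Squarefree (Ideal.span {∏ s ∈ unequal e, (F s).eval t})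

end Defs

/-- The points `N s, 1, …, 2 g`, where `N = ((8 g)!) ^ 2`. -/
def points (g s : ℕ) : Fin (2 * g + 1) → ℚ :=
  Fin.cons ((((8 * g).factorial ^ 2 * s : ℕ)) : ℚ) fun i => ((i : ℕ) : ℚ) + 1

private lemma bracket_eq {K : Type} [Field K] {m : ℕ} (a : Fin m → K) (i j : Fin (m + 1)) :
    Pool.Agent.TH905.HS.al K m i * Pool.Agent.TH905.HS.be a j -
      Pool.Agent.TH905.HS.al K m j * Pool.Agent.TH905.HS.be a i = bracket a i j := by
  unfold bracket
  have h1 : ∀ i, (form a i).1 = Pool.Agent.TH905.HS.al K m i := by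
    intro i
    induction i using Fin.cases <;> simp [form, Pool.Agent.TH905.HS.al]
  have h2 : ∀ i, (form a i).2 = Pool.Agent.TH905.HS.be a i := by
    intro i
    induction i using Fin.cases <;> simp [form, Pool.Agent.TH905.HS.be]
  rw [h1, h1, h2, h2]

private lemma sum_eq {K : Type} [Field K] [NumberField K] {m : ℕ} (a : Fin m → K) :
    ∑ i : Fin (m + 1), ∑ j : Fin (m + 1), ∑ k : Fin (m + 1), ∑ l : Fin (m + 1),
      Pool.Agent.Q128.HD.qh (fun x y => Pool.Agent.TH905.HS.al K m x *
        Pool.Agent.TH905.HS.be a y - Pool.Agent.TH905.HS.al K m y *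
        Pool.Agent.TH905.HS.be a x) i j k l = ∑ q ∈ quadruples m, crossHeight a q := by
  unfold quadruples
  rw [Finset.sum_filter, Fintype.sum_prod_type]
  refine Finset.sum_congr rfl fun i _ => ?_
  rw [Fintype.sum_prod_type]
  refine Finset.sum_congr rfl fun j _ => ?_
  rw [Fintype.sum_prod_type]
  refine Finset.sum_congr rfl fun k _ => Finset.sum_congr rfl fun l _ => ?_
  unfold Pool.Agent.Q128.HD.qh crossHeight
  by_cases h : Pool.Agent.Q128.HD.Dist i j k l
  · rw [if_pos h]
    refine Eq.trans ?_ (if_pos h).symm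
    simp only [bracket_eq]
  · rw [if_neg h]
    exact (if_neg h).symm

theorem result (g : ℕ) (hg : 2 ≤ g) :
    -- (1) the general inequality
    (∀ (K : Type) [Field K] [NumberField K] (a : Fin (2 * g + 1) → K), Function.Injective a →
      ∀ d : K, d ≠ 0 →
        Real.log (discNorm g (curve d a)) ≤ (4 * g + 2) * Real.log (badNorm g (curve d a)) +
          4 * g * Module.finrank ℚ K * Real.log 2 +
          (∑ q ∈ quadruples (2 * g + 1), crossHeight a q) / (2 * g * (g + 1))) ∧
    -- (2) the configurations composed of numbers with small digits, over all number fields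
    (∀ D : ℕ, ∃ δ : ℝ, 0 < δ ∧ ∃ T₀ : ℝ, 1 ≤ T₀ ∧ ∀ T : ℝ, T₀ ≤ T →
      ∀ (K : Type) [Field K] [NumberField K] (a : Fin (2 * g + 1) → K), Composed D δ T a →
        ∀ d : K, d ≠ 0 →
          discNorm g (curve d a) ≤ badNorm g (curve d a) ^ (8 * g ^ 2 + 4 * g)) ∧
    -- (3) there are many of them over the rational numbers
    (∀ D : ℕ, 2 * g ≤ D → ∀ δ : ℝ, 0 < δ → ∃ T₁ : ℝ, ∀ T : ℝ, T₁ ≤ T → ∃ B₀ : ℕ, ∀ B : ℕ,
      B₀ ≤ B → ∃ s : Finset ℕ, (B : ℝ) / 2 ≤ s.card ∧
        ∀ x ∈ s, x ≤ B ∧ Composed D δ T (points g x)) := by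
  classical
  refine ⟨?_, ?_, ?_⟩
  · intro K _ _ a ha d hd
    have h1 := Pool.Agent.Q128.HD.general hg rfl hd ha
    rw [sum_eq] at h1
    have h2 : (0 : ℝ) < g := by exact_mod_cast (by omega : 0 < g)
    have h3 : (0 : ℝ) < 2 * (((g : ℝ) + 1) * g) := by positivity
    have h4 : curve d a = Pool.Agent.TH905.HS.pol d a := rfl
    rw [h4]
    refine le_of_mul_le_mul_left (h1.trans (le_of_eq ?_)) h3
    field_simp
  · intro D
    obtain ⟨δ, hδ, T₀, hT₀, h⟩ := Pool.Agent.Q128.HD.main g hg D
    refine ⟨δ, hδ, T₀, hT₀, ?_⟩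
    intro T hT K _ _ a hC d hd
    obtain ⟨ha, n, t, F, κ, c, e, hS, hκ, hdiff, hne, hsq⟩ := hC
    exact h T hT K (2 * g + 1) n t F κ a c e (unequal e) rfl ha hκ hdiff hS.base hS.two_digits
      hS.number hS.digits hS.first hS.last hS.coprime hS.coefficients hS.exponents
      (fun s => by unfold unequal; simp) hne hsq d hd
  · intro D hD δ hδ
    obtain ⟨U, hU⟩ : ∃ U : ℝ, U = (((8 * g).factorial ^ 2 : ℕ) : ℝ) := ⟨_, rfl⟩
    have hU1 : 1 ≤ U := by
      rw [hU]
      exact_mod_cast Nat.pos_of_ne_zero (by positivity)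
    refine ⟨max 1 (U ^ (1 / δ)), ?_⟩
    intro T hT
    have hT1 : 1 ≤ T := (le_max_left _ _).trans hT
    have hTU : U ^ (1 / δ) ≤ T := (le_max_right _ _).trans hT
    have hTd : U ≤ T ^ δ := by
      have h1 : (U ^ (1 / δ)) ^ δ = U := by
        rw [← Real.rpow_mul (by linarith), one_div, inv_mul_cancel₀ hδ.ne', Real.rpow_one]
      calc U = (U ^ (1 / δ)) ^ δ := h1.symm
        _ ≤ T ^ δ := Real.rpow_le_rpow (by positivity) hTU hδ.le
    have hTd1 : 1 ≤ T ^ δ := hU1.trans hTd
    have hgU : 2 * (g : ℝ) ≤ U := by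
      have h4 : 8 * g ≤ (8 * g).factorial := Nat.self_le_factorial _
      have h5 : (8 * g).factorial ≤ (8 * g).factorial ^ 2 := Nat.le_self_pow (by norm_num) _
      rw [hU]
      exact_mod_cast (by omega : 2 * g ≤ (8 * g).factorial ^ 2)
    obtain ⟨B₀, hB₀⟩ := Pool.Agent.Q128.HD.many_s g (by omega) T
    refine ⟨B₀, ?_⟩
    intro B hB
    obtain ⟨s, hs, hs'⟩ := hB₀ B hB
    refine ⟨s, hs, ?_⟩
    intro x hx
    obtain ⟨h1, h2, h3⟩ := hs' x hx
    refine ⟨h2, ?_⟩
    have hx1 : 1 ≤ x := by
      have : (1 : ℝ) ≤ x := hT1.trans h1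
      exact_mod_cast this
    refine ⟨Pool.Agent.Q128.HD.injective_pa g (by omega) x hx1, 2 * g, (x : 𝓞 ℚ),
      Pool.Agent.Q128.HD.Fa g, 1, Pool.Agent.Q128.HD.ca g, Pool.Agent.Q128.HD.ea g, ?_, one_ne_zero,
      ?_, ?_, ?_⟩
    · constructor
      · intro σ
        have h4 : ((x : 𝓞 ℚ) : ℚ) = (x : ℚ) := by simp
        rw [h4, map_natCast, Complex.norm_natCast]
        exact h1
      · intro i
        rw [Pool.Agent.Q128.HD.natDegree_Fa]
        exact one_pos
      · refine le_trans (le_of_eq ?_) hD
        simp [Pool.Agent.Q128.HD.natDegree_Fa]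
      · intro i j σ
        refine (Pool.Agent.Q128.HD.digit_le σ).trans ?_
        rw [← hU]
        exact hTd
      · intro i σ
        refine le_trans ?_ (Pool.Agent.Q128.HD.first_ge σ)
        exact Real.rpow_le_one_of_one_le_of_nonpos hT1 (by linarith)
      · intro i σ
        exact Pool.Agent.Q128.HD.last_le σ
      · intro i j hij
        exact Pool.Agent.Q128.HD.coprime_Fa g x i j hij
      · intro i j hij σ
        exact ((Pool.Agent.Q128.HD.ca_le g i j hij σ).trans hgU).trans hTd
      · intro i j _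
        refine le_trans ?_ hTd1
        exact_mod_cast Pool.Agent.Q128.HD.ea_le g i j
    · exact Pool.Agent.Q128.HD.difference g x
    · refine ⟨⟨0, by omega⟩, ?_⟩
      unfold unequal
      rw [mem_filter]
      exact ⟨mem_univ _, Pool.Agent.Q128.HD.uneq_ea g (by omega) _⟩
    · exact Pool.Agent.Q128.HD.squarefree_Fa g x hx1 h3 _

end Pool.Agent.Results.MP_ca2859_nt.SmallDigitConfigurations
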