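import Pool.Agent.Q272.HA.Spl
import Pool.Agent.Q272.LP.Classes

/-!
# The Szpiro-type bound for hyperelliptic curves of one genus `g ≥ 2` and the abc inequality

`IsHyp g F` (`y² = F` is a hyperelliptic curve of genus `g`), `discNorm g F` (`Δ_C`) and
`badNorm g F` (`M_C`) are the definitions of `Pool/Agent/W318/SzpDefs.lean`.
-/

set_option autoImplicit false

namespace Pool.Agent.Results.MP_ca2859_nt.WeakAbc

open Polynomial NumberField
open Pool.Agent.W318 (IsHyp discNorm badNorm kap)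

/-- the product of the primes dividing `n` -/
def rad (n : ℕ) : ℕ := ∏ p ∈ n.primeFactors, p

/-- the abc inequality with the exponent `l` and some constant -/
def Abc (l : ℝ) : Prop :=
  ∃ C : ℝ, ∀ a b c : ℕ, 0 < a → 0 < b → a + b = c → Nat.Coprime a b →
    (c : ℝ) ≤ C * (rad (a * b * c) : ℝ) ^ l

/-- the inequality `Δ_C ≤ c M_C ^ κ`, with some constant `c`, for the hyperelliptic curves
`C : y² = F` of genus `g` over `K` with the property `P` -/
def Inequality (K : Type) [Field K] [NumberField K] (g : ℕ) (P : K[X] → Prop) (κ : ℝ) : Prop :=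
  ∃ c : ℝ, ∀ F : K[X], IsHyp g F → P F → (discNorm g F : ℝ) ≤ c * (badNorm g F : ℝ) ^ κ

/-- `F = Y (x^(g+1) + 1)² + 4 T x^(g+1)` with coprime positive integers `Y` and `T` -/
def Trinomial (K : Type) [Field K] (g : ℕ) (F : K[X]) : Prop :=
  ∃ Y T : ℕ, 0 < Y ∧ 0 < T ∧ Nat.Coprime Y T ∧
    F = C (Y : K) * (X ^ (g + 1) + 1) ^ 2 + C (4 * (T : K)) * X ^ (g + 1)

/-- all roots of `F` are rational, that is, all Weierstrass points of the curve `y² = F` are
rational -/
def Rational (F : ℚ[X]) : Prop := F.Splits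

/-- `W` is a global minimal Weierstrass equation: `Δ ≠ 0`, and `|Δ|` is smallest among all integral
Weierstrass equations that are obtained from `W` by a change of variables over `ℚ` -/
def IsGlobalMinimal (W : WeierstrassCurve ℤ) : Prop :=
  W.Δ ≠ 0 ∧ ∀ W' : WeierstrassCurve ℤ,
    (∃ C : WeierstrassCurve.VariableChange ℚ,
      C • W.map (Int.castRingHom ℚ) = W'.map (Int.castRingHom ℚ)) → |W.Δ| ≤ |W'.Δ|

/-- the prime-to-6 part of the conductor of a global minimal equation: the product over the primes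
`p ≥ 5` dividing `Δ` of `p` (multiplicative reduction, `p ∤ c₄`) or `p²` (additive, `p ∣ c₄`) -/
def conductor6 (W : WeierstrassCurve ℤ) : ℕ :=
  ∏ p ∈ W.Δ.natAbs.primeFactors.filter (fun p : ℕ => 5 ≤ p),
    if ((p : ℕ) : ℤ) ∣ W.c₄ then (p : ℕ) ^ 2 else p

/-- all points of order two of the elliptic curve are rational -/
def FullTwoTorsion (W : WeierstrassCurve ℤ) : Prop :=
  ∃ r₁ r₂ r₃ : ℚ, ∀ x : ℚ,
    4 * x ^ 3 + W.b₂ * x ^ 2 + 2 * W.b₄ * x + W.b₆ = 4 * (x - r₁) * (x - r₂) * (x - r₃)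

theorem abc_one {g : ℕ} {K : Type} [Field K] [NumberField K] (hg : 2 ≤ g) {κ : ℝ}
    (h : Inequality K g (fun _ => True) κ) : (kap g : ℝ) + (4 * g + 2) < κ := by
  by_contra hcon
  push Not at hcon
  obtain ⟨f, hf⟩ := Pool.Agent.Y678.SZ.main g hg
  obtain ⟨h1, h2⟩ := hf K
  obtain ⟨c, hc⟩ := h
  obtain ⟨j, hj⟩ := (h2 c κ hcon).exists
  exact absurd (hc _ (h1 j) trivial) (not_le.mpr hj)

/-- **The Szpiro-type bound for one genus over one number field.**

(1) Let `K` be a number field, `g ≥ 2` and `κ ≥ 0`. If the inequality `Δ_C ≤ c M_C ^ κ` holds for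
the curves `y² = Y (x^(g+1) + 1)² + 4 T x^(g+1)` over `K`, then the abc inequality holds with the
exponent `κ / (3 g + 1)`.
(2) Conversely, if the abc inequality holds with the exponent `l ≥ 0`, then for these curves
`Δ_C ≤ c M_C ^ ((4 g + 2) l)`, for all number fields `K` and all `g ≥ 2`.
(3) If the abc inequality holds with the exponent `l ≥ 0`, then for all `g ≥ 2` and all
hyperelliptic curves over `ℚ` of genus `g` whose Weierstrass points are rational
`Δ_C ≤ c M_C ^ (4 g + 2 + (2 g + 1) (2 g) (2 g - 1) l)`.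
(4) Let `Δ_C ≤ c M_C ^ κ` hold for all hyperelliptic curves of one genus `g ≥ 2` over one number
field `K`, and put `l = κ / (3 g + 1)`. Then `l > 1`, the abc inequality holds with the exponent
`l`, the inequalities in (2) and (3) hold for all `K` and `g`, and
`max (|c₄|³, c₆²) ≤ C N₆ ^ (6 l)` for all elliptic curves over `ℚ` whose points of order two are
rational (`N₆` is the prime-to-6 part of the conductor). -/
theorem result :
    (∀ (K : Type) [Field K] [NumberField K] (g : ℕ) (κ : ℝ), 2 ≤ g → 0 ≤ κ →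
      Inequality K g (Trinomial K g) κ → Abc (κ / (3 * g + 1))) ∧
    (∀ l : ℝ, 0 ≤ l → Abc l → ∀ (K : Type) [Field K] [NumberField K] (g : ℕ), 2 ≤ g →
      Inequality K g (Trinomial K g) ((4 * g + 2) * l)) ∧
    (∀ l : ℝ, 0 ≤ l → Abc l → ∀ g : ℕ, 2 ≤ g →
      Inequality ℚ g Rational (4 * g + 2 + (2 * g + 1) * (2 * g) * (2 * g - 1) * l)) ∧
    (∀ (K : Type) [Field K] [NumberField K] (g : ℕ) (κ l : ℝ), 2 ≤ g → l = κ / (3 * g + 1) →
      Inequality K g (fun _ => True) κ → 1 < l ∧ Abc l ∧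
        (∀ (K' : Type) [Field K'] [NumberField K'] (g' : ℕ), 2 ≤ g' →
          Inequality K' g' (Trinomial K' g') ((4 * g' + 2) * l)) ∧
        (∀ g' : ℕ, 2 ≤ g' →
          Inequality ℚ g' Rational (4 * g' + 2 + (2 * g' + 1) * (2 * g') * (2 * g' - 1) * l)) ∧
        ∃ C : ℝ, ∀ W : WeierstrassCurve ℤ, IsGlobalMinimal W → FullTwoTorsion W →
          max (|(W.c₄ : ℝ)| ^ 3) ((W.c₆ : ℝ) ^ 2) ≤ C * (conductor6 W : ℝ) ^ (6 * l)) := by
  have H1 : ∀ (K : Type) [Field K] [NumberField K] (g : ℕ) (κ : ℝ), 2 ≤ g → 0 ≤ κ →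
      Inequality K g (Trinomial K g) κ → Abc (κ / (3 * g + 1)) := by
    intro K _ _ g κ hg hκ h
    exact Pool.Agent.Q272.HA.abc_of_trin K hg hκ h
  have H2 : ∀ l : ℝ, 0 ≤ l → Abc l → ∀ (K : Type) [Field K] [NumberField K] (g : ℕ), 2 ≤ g →
      Inequality K g (Trinomial K g) ((4 * g + 2) * l) := by
    intro l hl h K _ _ g hg
    exact Pool.Agent.Q272.HA.trin_of_abc K hg hl h
  have H3 : ∀ l : ℝ, 0 ≤ l → Abc l → ∀ g : ℕ, 2 ≤ g →
      Inequality ℚ g Rational (4 * g + 2 + (2 * g + 1) * (2 * g) * (2 * g - 1) * l) := by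
    intro l hl h g hg
    exact Pool.Agent.Q272.HA.spl_of_abc hg hl h
  refine ⟨H1, H2, H3, ?_⟩
  intro K _ _ g κ l hg hl h
  have hκ := abc_one hg h
  have hgR : (2 : ℝ) ≤ g := by exact_mod_cast hg
  have hkap : (0 : ℝ) ≤ kap g := Nat.cast_nonneg _
  have hl1 : 1 < l := by
    rw [hl, one_lt_div (by linarith)]
    linarith
  have habc : Abc l := by
    rw [hl]
    refine H1 K g κ hg (by linarith) ?_
    obtain ⟨c, hc⟩ := h
    exact ⟨c, fun F hF _ => hc F hF trivial⟩
  refine ⟨hl1, habc, H2 l (by linarith) habc, H3 l (by linarith) habc, ?_⟩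
  obtain ⟨c', hc'⟩ := Pool.Agent.Q272.LP.full_up hl1.le habc
  refine Pool.Agent.Q272.LP.ineq_transfer (N := fun W => (conductor6 W : ℝ))
    (fun W _ => le_rfl) (P := FullTwoTorsion) (Q := Pool.Agent.Q272.LP.FullTwoTorsion)
    Pool.Agent.Q272.LP.full_iff (by linarith) ⟨Real.exp c', Real.exp_pos _, fun a b hmin hf => ?_⟩
  have h1 := hc' a b hmin hf
  have hH := Pool.Agent.Q272.LP.hs_one ((Pool.Agent.Q272.LP.isMinimal_iff a b).mp hmin).1
  have hN := Pool.Agent.Q272.LP.N6_one a b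
  rw [← Real.log_le_log_iff (by linarith) (by positivity), Real.log_mul (Real.exp_pos _).ne'
    (by positivity), Real.log_exp, Real.log_rpow (by linarith)]
  linarith

end Pool.Agent.Results.MP_ca2859_nt.WeakAbc
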